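import Pool.Graph.R_pool_sql_team_seeded_3997aac3.Q279.SC.J.SMALL

set_option autoImplicit false

namespace Pool.Agent.H457.OCTwo

open Finset Pool.Agent.Q279.SC

theorem main : ∀ W : WeierstrassCurve ℤ, ¬ (2 : ℤ) ∣ W.Δ → ¬ (2 : ℤ) ∣ Pool.Agent.Q279.SC.ap W 2 →
    Pool.Agent.Q279.SC.ap W 2 ^ 2 = 1 := by
  intro W hD hap
  haveI : Fact (Nat.Prime 2) := ⟨Nat.prime_two⟩
  obtain ⟨V, hV⟩ : ∃ V, V = W.map (Int.castRingHom (ZMod 2)) := ⟨_, rfl⟩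
  have hVD : V.Δ ≠ 0 := by
    rw [hV, WeierstrassCurve.map_Δ]
    intro h0
    exact hD ((ZMod.intCast_zmod_eq_zero_iff_dvd _ _).1 h0)
  unfold ap at hap ⊢
  rw [← hV, JSMALL.card_mod V hVD] at hap ⊢
  obtain ⟨n, hn⟩ : ∃ n, n = (univ.filter (fun xy : ZMod 2 × ZMod 2 =>
      xy.2 ^ 2 + V.a₁ * xy.1 * xy.2 + V.a₃ * xy.2 =
      xy.1 ^ 3 + V.a₂ * xy.1 ^ 2 + V.a₄ * xy.1 + V.a₆)).card := ⟨_, rfl⟩
  have hn4 : n ≤ 4 := by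
    rw [hn]
    exact (card_filter_le _ _).trans (by simp)
  rw [← hn] at hap ⊢
  interval_cases n <;> revert hap <;> norm_num

end Pool.Agent.H457.OCTwo
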