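import Pool.Agent.H770.SN.Stm

/-!
# Symmetries of the Steiner symmetral
-/

set_option autoImplicit false

open Function Pool.Agent.H770.SN

namespace Pool.Agent.H457.SN3

theorem upd_neg {n : ℕ} (x : Fin n → ℝ) (i : Fin n) (a : ℝ) :
    update (-x) i (-a) = -update x i a := by
  funext k
  by_cases hk : k = i
  · subst hk
    simp
  · simp [update_of_ne hk]

theorem upd_Rf_same {n : ℕ} (x : Fin n → ℝ) (i : Fin n) (a : ℝ) :
    update (Rf i x) i a = update x i a := by
  unfold Rf
  rw [update_idem]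

theorem upd_Rf {n : ℕ} (x : Fin n → ℝ) {i j : Fin n} (h : j ≠ i) (a : ℝ) :
    update (Rf j x) i a = Rf j (update x i a) := by
  unfold Rf
  rw [update_of_ne h, update_comm h]

theorem t_Stm : S_Stm := by
  intro n i K
  refine ⟨?_, ?_, ?_⟩
  · rintro hK x ⟨a, b, ha, hb, hx⟩
    refine ⟨-a, -b, ?_, ?_, ?_⟩
    · rw [upd_neg]
      exact hK _ ha
    · rw [upd_neg]
      exact hK _ hb
    · rw [Pi.neg_apply, hx]
      ring
  · rintro x ⟨a, b, ha, hb, hx⟩
    refine ⟨b, a, ?_, ?_, ?_⟩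
    · rw [upd_Rf_same]
      exact hb
    · rw [upd_Rf_same]
      exact ha
    · unfold Rf
      rw [update_self, hx]
      ring
  · rintro j hj hK x ⟨a, b, ha, hb, hx⟩
    refine ⟨a, b, ?_, ?_, ?_⟩
    · rw [upd_Rf x hj]
      exact hK _ ha
    · rw [upd_Rf x hj]
      exact hK _ hb
    · unfold Rf
      rw [update_of_ne hj.symm, hx]

end Pool.Agent.H457.SN3
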